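import Pool.Agent.U307.NT.Circ2

set_option autoImplicit false

/-! Zeros and factors of products of binomials; Laurent matrices and polynomial matrices. -/

namespace Pool.Agent.U307.NT

open TH57.Thr Pool.Agent.Q181.BD Pool.Agent.Q177.BD Polynomial Matrix

/-- evaluation at `z`, integral coefficients -/
noncomputable def evi (z : ℂ) (hz : z ≠ 0) : MonoidAlgebra ℤ (Multiplicative ℤ) →+* ℂ :=
  (ev z hz).toRingHom.comp (MonoidAlgebra.mapRingHom (Multiplicative ℤ) (Int.castRingHom ℝ))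

theorem evi_lau (z : ℂ) (hz : z ≠ 0) (p : ℤ[X]) : evi z hz (lau p) = aeval z p :=
  ev_lau z hz p

theorem evi_single (z : ℂ) (hz : z ≠ 0) (g : Multiplicative ℤ) (a : ℤ) :
    evi z hz (MonoidAlgebra.single g a) = (a : ℂ) * z ^ (Multiplicative.toAdd g) := by
  change ev z hz (MonoidAlgebra.mapRingHom (Multiplicative ℤ) (Int.castRingHom ℝ)
    (MonoidAlgebra.single g a)) = _
  rw [MonoidAlgebra.mapRingHom_single, ev_single]
  simp

/-- the zeros of a product of binomials -/
theorem zero_of_bin {F : MonoidAlgebra ℤ (Multiplicative ℤ)} (hF : Bin F) (hF0 : F ≠ 0) (z : ℂ)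
    (hz : z ≠ 0) (h : evi z hz F = 0) : ∃ k : ℕ, 1 ≤ k ∧ ∃ q : ℚ, z ^ k = q := by
  obtain ⟨s, rfl⟩ := hF
  rw [map_multiset_prod, Multiset.map_map, Multiset.prod_eq_zero_iff, Multiset.mem_map] at h
  obtain ⟨x, hx, hx0⟩ := h
  have hne : MonoidAlgebra.single x.1.1 x.1.2 + MonoidAlgebra.single x.2.1 x.2.2 ≠ 0 := by
    intro h0
    apply hF0
    rw [Multiset.prod_eq_zero_iff, Multiset.mem_map]
    exact ⟨x, hx, h0⟩
  obtain ⟨⟨g, a⟩, ⟨h', b⟩⟩ := x
  change evi z hz (MonoidAlgebra.single g a + MonoidAlgebra.single h' b) = 0 at hx0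
  change MonoidAlgebra.single g a + MonoidAlgebra.single h' b ≠ 0 at hne
  rw [map_add, evi_single, evi_single] at hx0
  obtain ⟨m, hm⟩ : ∃ m, m = Multiplicative.toAdd g := ⟨_, rfl⟩
  obtain ⟨n, hn⟩ : ∃ n, n = Multiplicative.toAdd h' := ⟨_, rfl⟩
  rw [← hm, ← hn] at hx0
  have hzm : z ^ m ≠ 0 := zpow_ne_zero _ hz
  have hzn : z ^ n ≠ 0 := zpow_ne_zero _ hz
  have key : ∀ (a b : ℤ) (m n : ℤ), b ≠ 0 → m < n → (a : ℂ) * z ^ m + (b : ℂ) * z ^ n = 0 →
      ∃ k : ℕ, 1 ≤ k ∧ ∃ q : ℚ, z ^ k = q := by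
    intro a b m n hb hmn h
    refine ⟨(n - m).toNat, by omega, -(a : ℚ) / b, ?_⟩
    have hbc : (b : ℂ) ≠ 0 := by exact_mod_cast hb
    have h1 : z ^ n = z ^ m * z ^ (n - m).toNat := by
      rw [← zpow_natCast, ← zpow_add₀ hz]
      congr 1
      omega
    have hzm : z ^ m ≠ 0 := zpow_ne_zero _ hz
    rw [h1] at h
    have h2 : z ^ m * ((a : ℂ) + b * z ^ (n - m).toNat) = 0 := by linear_combination h
    rcases mul_eq_zero.1 h2 with h3 | h3
    · exact absurd h3 hzm
    · push_cast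
      rw [eq_div_iff hbc]
      linear_combination h3
  have hab : a ≠ 0 ∧ b ≠ 0 ∧ m ≠ n := by
    have hb : b ≠ 0 := by
      rintro rfl
      rw [Int.cast_zero, zero_mul, add_zero] at hx0
      rcases mul_eq_zero.1 hx0 with h3 | h3
      · have h4 : a = 0 := by exact_mod_cast h3
        apply hne
        rw [h4]
        simp
      · exact hzm h3
    have ha : a ≠ 0 := by
      rintro rfl
      rw [Int.cast_zero, zero_mul, zero_add] at hx0
      rcases mul_eq_zero.1 hx0 with h3 | h3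
      · exact hb (by exact_mod_cast h3)
      · exact hzn h3
    refine ⟨ha, hb, ?_⟩
    intro hmn
    have hgh : g = h' := Multiplicative.toAdd.injective (by rw [← hm, ← hn, hmn])
    rw [← hmn] at hx0
    have h2 : ((a : ℂ) + b) * z ^ m = 0 := by linear_combination hx0
    rcases mul_eq_zero.1 h2 with h3 | h3
    · have h4 : a + b = 0 := by exact_mod_cast h3
      apply hne
      rw [hgh, ← MonoidAlgebra.single_add, h4]
      simp
    · exact hzm h3
  rcases lt_or_gt_of_ne hab.2.2 with h1 | h1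
  · exact key a b m n hab.2.1 h1 hx0
  · exact key b a n m hab.1 h1 (by linear_combination hx0)

/-- A power of `t` times `F` is a product of binomials with nonnegative exponents. -/
def PB (F : MonoidAlgebra ℤ (Multiplicative ℤ)) : Prop :=
  ∃ (m : ℕ) (s : Multiset (ℤ × ℤ × ℕ)),
    lau ((s.map fun t => C t.1 + C t.2.1 * X ^ t.2.2).prod) = tt m * F

theorem pb_bin (x : (Multiplicative ℤ × ℤ) × (Multiplicative ℤ × ℤ)) :
    PB (MonoidAlgebra.single x.1.1 x.1.2 + MonoidAlgebra.single x.2.1 x.2.2) := by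
  obtain ⟨⟨g, a⟩, ⟨h, b⟩⟩ := x
  obtain ⟨m, rfl⟩ := Multiplicative.ofAdd.surjective g
  obtain ⟨n, rfl⟩ := Multiplicative.ofAdd.surjective h
  have key : ∀ (a b : ℤ) (m n : ℤ), m ≤ n →
      PB (MonoidAlgebra.single (Multiplicative.ofAdd m) a +
        MonoidAlgebra.single (Multiplicative.ofAdd n) b) := by
    intro a b m n hmn
    refine ⟨m.natAbs, {(0, 1, (m.natAbs + m).toNat), (a, b, (n - m).toNat)}, ?_⟩
    simp only [Multiset.insert_eq_cons, Multiset.map_cons, Multiset.map_singleton,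
      Multiset.prod_cons, Multiset.prod_singleton]
    rw [C_0, zero_add, map_mul, lau_mono, map_add, lau_mono]
    have h1 : lau (C a) = MonoidAlgebra.single (Multiplicative.ofAdd (0 : ℤ)) a := by
      have := lau_mono a 0
      rwa [pow_zero, mul_one] at this
    rw [h1, mul_add, mul_add, Pool.Agent.Q177.BD.tt]
    simp only [MonoidAlgebra.single_mul_single, one_mul, ← ofAdd_add]
    congr 3
    · omega
    · omega
  rcases le_total m n with h | h
  · exact key a b m n h
  · have := key b a n m h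
    rwa [add_comm] at this

theorem pb_mul {F G : MonoidAlgebra ℤ (Multiplicative ℤ)} (hF : PB F) (hG : PB G) :
    PB (F * G) := by
  obtain ⟨m, s, h1⟩ := hF
  obtain ⟨m', s', h1'⟩ := hG
  refine ⟨m + m', s + s', ?_⟩
  rw [Multiset.map_add, Multiset.prod_add, map_mul, h1, h1', Nat.cast_add, ← tt_mul]
  ring

theorem pb_one : PB 1 := by
  refine ⟨0, 0, ?_⟩
  rw [Multiset.map_zero, Multiset.prod_zero, map_one, mul_one]
  rfl

theorem pb_of_bin {F : MonoidAlgebra ℤ (Multiplicative ℤ)} (hF : Bin F) : PB F := by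
  obtain ⟨s, rfl⟩ := hF
  induction s using Multiset.induction_on with
  | empty => simpa using pb_one
  | cons x s ih =>
    rw [Multiset.map_cons, Multiset.prod_cons]
    exact pb_mul (pb_bin x) ih

theorem prod_of_bin {P : ℤ[X]} (h : Bin (lau P)) : ∃ (m : ℕ) (s : Multiset (ℤ × ℤ × ℕ)),
    X ^ m * P = (s.map fun t => C t.1 + C t.2.1 * X ^ t.2.2).prod := by
  obtain ⟨m, s, hs⟩ := pb_of_bin h
  refine ⟨m, s, lau_inj ?_⟩
  rw [hs, map_mul, lau_X]

theorem torsionFree (g : Multiplicative ℤ) (k : ℕ) (hk : 0 < k) (h : g ^ k = 1) : g = 1 := by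
  obtain ⟨m, rfl⟩ := Multiplicative.ofAdd.surjective g
  rw [← ofAdd_nsmul] at h
  have h1 : k • m = 0 := Multiplicative.ofAdd.injective h
  rw [nsmul_eq_mul] at h1
  rcases mul_eq_zero.1 h1 with h2 | h2
  · exact absurd (by exact_mod_cast h2) hk.ne'
  · rw [h2]
    rfl

/-- the determinant as a product of binomials -/
theorem bin_lau_det {κ : Type} [Fintype κ] [DecidableEq κ] (A : Matrix κ κ ℤ[X]) (c : ℝ)
    (hc0 : 0 ≤ c) (hc : c < 3 / Real.sqrt 2)
    (h : ∀ z : ℂ, ‖z‖ = 1 → ∀ v : κ → ℂ,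
      ∑ j, ‖∑ i, v i * aeval z (A i j)‖ ^ 2 ≤ c ^ 2 * ∑ i, ‖v i‖ ^ 2) : Bin (lau A.det) := by
  have h1 := bin_det (Multiplicative ℤ) torsionFree κ (A.map lau) c hc0 hc (normLE_of_circle A c h)
  have h2 : (A.map lau).det = lau A.det := by
    rw [← RingHom.mapMatrix_apply, ← RingHom.map_det]
  rwa [h2] at h1

/-- multiplication by a power of `t` does not change the norm -/
theorem normLE_smul {κ : Type} [Fintype κ] (A : Matrix κ κ (MonoidAlgebra ℤ (Multiplicative ℤ)))
    (c : ℝ) (K : ℕ) (h : NormLE A c) : NormLE (A.map fun a => tt K * a) c := by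
  intro x
  have h1 : x ᵥ* toReal (A.map fun a => tt K * a) = fun j => (x ᵥ* toReal A) j *
      MonoidAlgebra.single (Multiplicative.ofAdd (K : ℤ)) 1 := by
    funext j
    rw [Matrix.vecMul, Matrix.vecMul, dotProduct, dotProduct, Finset.sum_mul]
    refine Finset.sum_congr rfl fun i _ => ?_
    change x i * MonoidAlgebra.mapRingHom (Multiplicative ℤ) (Int.castRingHom ℝ) (tt K * A i j) =
      x i * MonoidAlgebra.mapRingHom (Multiplicative ℤ) (Int.castRingHom ℝ) (A i j) * _
    rw [map_mul, Pool.Agent.Q177.BD.tt, MonoidAlgebra.mapRingHom_single]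
    simp only [eq_intCast, Int.cast_one]
    ring
  rw [h1]
  have h2 : normSq (fun j => (x ᵥ* toReal A) j *
      MonoidAlgebra.single (Multiplicative.ofAdd (K : ℤ)) 1) = normSq (x ᵥ* toReal A) := by
    rw [normSq_eq, normSq_eq]
    exact Finset.sum_congr rfl fun j _ => n1_mul_single _ _
  rw [h2]
  exact h x

/-- every Laurent matrix is a power of `t` times a polynomial matrix -/
theorem exists_poly_matrix {n : ℕ}
    (A : Matrix (Fin n) (Fin n) (MonoidAlgebra ℤ (Multiplicative ℤ))) :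
    ∃ (B : Matrix (Fin n) (Fin n) ℤ[X]) (K : ℕ), B.map lau = A.map fun a => tt K * a := by
  have h := fun i j => exists_lau (A i j)
  choose Q k hQ using h
  refine ⟨Matrix.of fun i j => X ^ ((Finset.univ.sup fun q : Fin n × Fin n => k q.1 q.2) - k i j) *
    Q i j, Finset.univ.sup fun q : Fin n × Fin n => k q.1 q.2, ?_⟩
  ext1 i j
  have hk : k i j ≤ Finset.univ.sup fun q : Fin n × Fin n => k q.1 q.2 :=
    Finset.le_sup (f := fun q : Fin n × Fin n => k q.1 q.2) (Finset.mem_univ (i, j))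
  rw [Matrix.map_apply, Matrix.map_apply, Matrix.of_apply, map_mul, lau_X, hQ, ← mul_assoc, tt_mul]
  congr 2
  omega

end Pool.Agent.U307.NT
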