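import Pool.Agent.Q181.BD.Fin
import Pool.Agent.Q181.BD.Up
import Pool.Agent.Q177.BD.Mah

set_option autoImplicit false

/-! The `ℓ²`-norm of a matrix of polynomials is its supremum norm on the unit circle. -/

namespace Pool.Agent.U307.NT

open TH57.Thr Pool.Agent.Q181.BD Pool.Agent.Q177.BD Polynomial Matrix

/-- the powers of `z` as a character -/
noncomputable def ph (z : ℂ) (hz : z ≠ 0) : Multiplicative ℤ →* ℂ where
  toFun g := z ^ (Multiplicative.toAdd g)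
  map_one' := by simp
  map_mul' g h := by rw [toAdd_mul, zpow_add₀ hz]

/-- evaluation at `z`, real coefficients -/
noncomputable def ev (z : ℂ) (hz : z ≠ 0) : MonoidAlgebra ℝ (Multiplicative ℤ) →ₐ[ℝ] ℂ :=
  MonoidAlgebra.lift ℝ ℂ (Multiplicative ℤ) (ph z hz)

theorem ev_single (z : ℂ) (hz : z ≠ 0) (g : Multiplicative ℤ) (r : ℝ) :
    ev z hz (MonoidAlgebra.single g r) = (r : ℂ) * z ^ (Multiplicative.toAdd g) := by
  rw [ev, MonoidAlgebra.lift_single, Complex.real_smul]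
  rfl

theorem ev_eq_sum (z : ℂ) (hz : z ≠ 0) (y : MonoidAlgebra ℝ (Multiplicative ℤ)) :
    ev z hz y = ∑ g ∈ y.coeff.support, (y.coeff g : ℂ) * z ^ (Multiplicative.toAdd g) := by
  have h : y = ∑ g ∈ y.coeff.support, MonoidAlgebra.single g (y.coeff g) := by
    have := MonoidAlgebra.sum_coeff_single y
    exact this.symm
  conv_lhs => rw [h]
  rw [map_sum]
  exact Finset.sum_congr rfl fun g _ => ev_single z hz g _

theorem ev_lau (z : ℂ) (hz : z ≠ 0) (p : ℤ[X]) :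
    ev z hz (MonoidAlgebra.mapRingHom (Multiplicative ℤ) (Int.castRingHom ℝ) (lau p)) =
      aeval z p := by
  have h : ((ev z hz).toRingHom.comp ((MonoidAlgebra.mapRingHom (Multiplicative ℤ)
      (Int.castRingHom ℝ)).comp lau)) = (aeval z : ℤ[X] →ₐ[ℤ] ℂ).toRingHom := by
    apply Polynomial.ringHom_ext'
    · exact RingHom.ext_int _ _
    · have h1 : lau (X : ℤ[X]) = MonoidAlgebra.single (Multiplicative.ofAdd (1 : ℤ)) 1 := by
        have := lau_X 1
        rw [pow_one] at this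
        rw [this]
        rfl
      change ev z hz (MonoidAlgebra.mapRingHom (Multiplicative ℤ) (Int.castRingHom ℝ) (lau X)) =
        aeval z (X : ℤ[X])
      rw [h1, MonoidAlgebra.mapRingHom_single, ev_single, aeval_X]
      simp
  exact congrArg (fun f : ℤ[X] →+* ℂ => f p) h

theorem orth {N : ℕ} (hN : 0 < N) {ζ : ℂ} (hζ : IsPrimitiveRoot ζ N) (m : ℤ) (hm : m ≠ 0)
    (hmN : |m| < N) : ∑ j ∈ Finset.range N, (ζ ^ j) ^ m = 0 := by
  have h1 : ∀ j : ℕ, (ζ ^ j) ^ m = (ζ ^ m) ^ j := by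
    intro j
    rw [← zpow_natCast, ← zpow_natCast, ← _root_.zpow_mul, ← _root_.zpow_mul, mul_comm]
  simp_rw [h1]
  have h2 : ζ ^ m ≠ 1 := by
    intro h
    have h5 := (hζ.zpow_eq_one_iff_dvd m).1 h
    exact hm (Int.eq_zero_of_abs_lt_dvd h5 hmN)
  have h3 : (ζ ^ m) ^ N = 1 := by
    rw [← zpow_natCast, ← _root_.zpow_mul, mul_comm, _root_.zpow_mul, zpow_natCast, hζ.pow_eq_one, _root_.one_zpow]
  have h4 := mul_neg_geom_sum (ζ ^ m) N
  rw [h3, sub_self] at h4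
  rcases mul_eq_zero.1 h4 with h | h
  · exact absurd (sub_eq_zero.1 h).symm h2
  · exact h

theorem pars {N : ℕ} (hN : 0 < N) {ζ : ℂ} (hζ : IsPrimitiveRoot ζ N)
    (y : MonoidAlgebra ℝ (Multiplicative ℤ)) (D : ℕ)
    (hD : ∀ g ∈ y.coeff.support, (Multiplicative.toAdd g).natAbs ≤ D) (hDN : 2 * D < N)
    (hj : ∀ j : ℕ, ζ ^ j ≠ 0) (hnorm : ‖ζ‖ = 1) :
    ∑ j ∈ Finset.range N, ‖ev (ζ ^ j) (hj j) y‖ ^ 2 = N * n1 y := by
  have key : ∀ j : ℕ, ((‖ev (ζ ^ j) (hj j) y‖ ^ 2 : ℝ) : ℂ) =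
      ∑ g ∈ y.coeff.support, ∑ h ∈ y.coeff.support, ((y.coeff g : ℂ) * (y.coeff h : ℂ)) *
        (ζ ^ j) ^ (Multiplicative.toAdd g - Multiplicative.toAdd h) := by
    intro j
    have hn : ‖ζ ^ j‖ = 1 := by rw [norm_pow, hnorm, one_pow]
    rw [Complex.ofReal_pow, ← Complex.mul_conj', ev_eq_sum, map_sum, Finset.sum_mul_sum]
    refine Finset.sum_congr rfl fun g _ => Finset.sum_congr rfl fun h _ => ?_
    rw [map_mul, Complex.conj_ofReal, map_zpow₀, ← Complex.inv_eq_conj hn, zpow_sub₀ (hj j), _root_.inv_zpow,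
      div_eq_mul_inv]
    ring
  have h1 : ((∑ j ∈ Finset.range N, ‖ev (ζ ^ j) (hj j) y‖ ^ 2 : ℝ) : ℂ) = ((N * n1 y : ℝ) : ℂ) := by
    rw [Complex.ofReal_sum, Finset.sum_congr rfl (fun j _ => key j), Finset.sum_comm]
    rw [Complex.ofReal_mul, n1, Complex.ofReal_sum, Finset.mul_sum]
    refine Finset.sum_congr rfl fun g hg => ?_
    rw [Finset.sum_comm, Finset.sum_eq_single g]
    · simp only [sub_self, zpow_zero, mul_one, Finset.sum_const, Finset.card_range, nsmul_eq_mul]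
      push_cast
      ring
    · intro h hh hne
      rw [← Finset.mul_sum, orth hN hζ, mul_zero]
      · intro h0
        exact hne (Multiplicative.toAdd.injective (sub_eq_zero.1 h0)).symm
      · have h3 := hD g hg
        have h4 := hD h hh
        have h5 : |Multiplicative.toAdd g - Multiplicative.toAdd h| ≤ 2 * (D : ℤ) := by
          rw [abs_le]
          constructor <;> omega
        have h6 : (2 * (D : ℤ)) < N := by exact_mod_cast hDN
        exact lt_of_le_of_lt h5 h6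
    · intro h0
      exact absurd hg h0
  exact_mod_cast h1

theorem vec_ev {κ : Type} [Fintype κ] (A : Matrix κ κ ℤ[X])
    (x : κ → MonoidAlgebra ℝ (Multiplicative ℤ)) (j : κ) (z : ℂ) (hz : z ≠ 0) :
    ev z hz ((x ᵥ* toReal (A.map lau)) j) = ∑ i, ev z hz (x i) * aeval z (A i j) := by
  rw [Matrix.vecMul, dotProduct, map_sum]
  refine Finset.sum_congr rfl fun i _ => ?_
  rw [map_mul]
  congr 1
  exact ev_lau z hz (A i j)

/-- from the circle to finitely supported vectors -/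
theorem normLE_of_circle {κ : Type} [Fintype κ] (A : Matrix κ κ ℤ[X]) (c : ℝ)
    (h : ∀ z : ℂ, ‖z‖ = 1 → ∀ v : κ → ℂ,
      ∑ j, ‖∑ i, v i * aeval z (A i j)‖ ^ 2 ≤ c ^ 2 * ∑ i, ‖v i‖ ^ 2) :
    NormLE (A.map lau) c := by
  classical
  intro x
  obtain ⟨y, hy⟩ : ∃ y, y = x ᵥ* toReal (A.map lau) := ⟨_, rfl⟩
  rw [← hy]
  obtain ⟨D, hDx, hDy⟩ : ∃ D : ℕ, (∀ i, ∀ g ∈ (x i).coeff.support,
      (Multiplicative.toAdd g).natAbs ≤ D) ∧
      (∀ i, ∀ g ∈ (y i).coeff.support, (Multiplicative.toAdd g).natAbs ≤ D) := by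
    refine ⟨(Finset.univ.biUnion fun i => (x i).coeff.support ∪ (y i).coeff.support).sup
      (fun g => (Multiplicative.toAdd g).natAbs), fun i g hg => ?_, fun i g hg => ?_⟩
    · refine Finset.le_sup (f := fun g : Multiplicative ℤ => (Multiplicative.toAdd g).natAbs) ?_
      exact Finset.mem_biUnion.2 ⟨i, Finset.mem_univ _, Finset.mem_union_left _ hg⟩
    · refine Finset.le_sup (f := fun g : Multiplicative ℤ => (Multiplicative.toAdd g).natAbs) ?_
      exact Finset.mem_biUnion.2 ⟨i, Finset.mem_univ _, Finset.mem_union_right _ hg⟩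
  obtain ⟨N, hNe⟩ : ∃ N, N = 2 * D + 1 := ⟨_, rfl⟩
  have hN : 0 < N := by omega
  obtain ⟨ζ, hζ, hnorm⟩ : ∃ ζ : ℂ, IsPrimitiveRoot ζ N ∧ ‖ζ‖ = 1 := by
    have h1 := Complex.isPrimitiveRoot_exp N hN.ne'
    exact ⟨_, h1, h1.norm'_eq_one hN.ne'⟩
  have hζ0 : ζ ≠ 0 := hζ.ne_zero hN.ne'
  have hj : ∀ j : ℕ, ζ ^ j ≠ 0 := fun j => pow_ne_zero _ hζ0
  have h1 : (N : ℝ) * normSq y = ∑ j ∈ Finset.range N, ∑ i, ‖ev (ζ ^ j) (hj j) (y i)‖ ^ 2 := by
    rw [Finset.sum_comm, normSq_eq, Finset.mul_sum]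
    exact Finset.sum_congr rfl fun i _ => (pars hN hζ (y i) D (hDy i) (by omega) hj hnorm).symm
  have h2 : (N : ℝ) * normSq x = ∑ j ∈ Finset.range N, ∑ i, ‖ev (ζ ^ j) (hj j) (x i)‖ ^ 2 := by
    rw [Finset.sum_comm, normSq_eq, Finset.mul_sum]
    exact Finset.sum_congr rfl fun i _ => (pars hN hζ (x i) D (hDx i) (by omega) hj hnorm).symm
  have h3 : (N : ℝ) * normSq y ≤ N * (c ^ 2 * normSq x) := by
    rw [h1, show (N : ℝ) * (c ^ 2 * normSq x) = c ^ 2 * (N * normSq x) by ring, h2, Finset.mul_sum]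
    refine Finset.sum_le_sum fun j _ => ?_
    have h4 := h (ζ ^ j) (by rw [norm_pow, hnorm, one_pow]) (fun i => ev (ζ ^ j) (hj j) (x i))
    refine le_trans (le_of_eq ?_) h4
    refine Finset.sum_congr rfl fun i _ => ?_
    rw [hy, vec_ev]
  have hN' : (0 : ℝ) < N := by exact_mod_cast hN
  exact le_of_mul_le_mul_left h3 hN'

end Pool.Agent.U307.NT
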