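import Pool.Agent.U307.NT.Circ

set_option autoImplicit false

/-! The `ℓ²`-norm of a matrix of polynomials bounds its norm at the points of the unit circle. -/

namespace Pool.Agent.U307.NT

open TH57.Thr Pool.Agent.Q181.BD Pool.Agent.Q177.BD Polynomial Matrix

/-- a truncated sequence -/
noncomputable def tr (N : ℕ) (f : ℕ → ℝ) : MonoidAlgebra ℝ (Multiplicative ℤ) :=
  ∑ k ∈ Finset.range N, MonoidAlgebra.single (Multiplicative.ofAdd (k : ℤ)) (f k)

theorem tr_coeff (N : ℕ) (f : ℕ → ℝ) (l : ℕ) :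
    (tr N f).coeff (Multiplicative.ofAdd (l : ℤ)) = if l < N then f l else 0 := by
  rw [tr, MonoidAlgebra.coeff_sum, Finsupp.finsetSum_apply]
  simp only [MonoidAlgebra.coeff_single, Finsupp.single_apply]
  rcases lt_or_ge l N with h | h
  · rw [if_pos h, Finset.sum_eq_single l]
    · simp
    · intro k _ hk
      rw [if_neg]
      intro h2
      exact hk (by simpa using h2)
    · intro h2
      exact absurd (Finset.mem_range.2 h) h2
  · rw [if_neg (by omega)]
    refine Finset.sum_eq_zero fun k hk => ?_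
    have h3 := Finset.mem_range.1 hk
    rw [if_neg]
    intro h2
    have h4 : k = l := by simpa using h2
    omega

theorem tr_n1 (N : ℕ) (f : ℕ → ℝ) : n1 (tr N f) = ∑ k ∈ Finset.range N, f k ^ 2 := by
  classical
  have hinj : Function.Injective (fun k : ℕ => Multiplicative.ofAdd (k : ℤ)) := by
    intro a b h
    simpa using h
  have hsupp : (tr N f).coeff.support ⊆
      (Finset.range N).map ⟨fun k : ℕ => Multiplicative.ofAdd (k : ℤ), hinj⟩ := by
    intro g hg
    by_contra hcon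
    rw [Finsupp.mem_support_iff] at hg
    apply hg
    rw [tr, MonoidAlgebra.coeff_sum, Finsupp.finsetSum_apply]
    refine Finset.sum_eq_zero fun k hk => ?_
    rw [MonoidAlgebra.coeff_single, Finsupp.single_apply, if_neg]
    intro h2
    exact hcon (Finset.mem_map.2 ⟨k, hk, h2⟩)
  rw [n1_eq _ _ hsupp, Finset.sum_map]
  refine Finset.sum_congr rfl fun k hk => ?_
  change (tr N f).coeff (Multiplicative.ofAdd (k : ℤ)) ^ 2 = _
  rw [tr_coeff, if_pos (Finset.mem_range.1 hk)]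

theorem mapR_lau (p : ℤ[X]) (D : ℕ) (hD : p.natDegree ≤ D) :
    MonoidAlgebra.mapRingHom (Multiplicative ℤ) (Int.castRingHom ℝ) (lau p) =
      ∑ m ∈ Finset.range (D + 1),
        MonoidAlgebra.single (Multiplicative.ofAdd (m : ℤ)) ((p.coeff m : ℤ) : ℝ) := by
  conv_lhs => rw [p.as_sum_range_C_mul_X_pow' (Nat.lt_succ_of_le hD)]
  rw [map_sum, map_sum]
  refine Finset.sum_congr rfl fun m _ => ?_
  rw [lau_mono, MonoidAlgebra.mapRingHom_single]
  rfl

theorem tr_mul_coeff (N : ℕ) (f : ℕ → ℝ) (p : ℤ[X]) (D l : ℕ) (hD : p.natDegree ≤ D)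
    (hl : D ≤ l) (hlN : l < N) :
    (tr N f * MonoidAlgebra.mapRingHom (Multiplicative ℤ) (Int.castRingHom ℝ) (lau p)).coeff
      (Multiplicative.ofAdd (l : ℤ)) = ∑ m ∈ Finset.range (D + 1), f (l - m) * (p.coeff m : ℝ) := by
  rw [mapR_lau p D hD, tr, Finset.sum_mul_sum, Finset.sum_comm, MonoidAlgebra.coeff_sum,
    Finsupp.finsetSum_apply]
  refine Finset.sum_congr rfl fun m hm => ?_
  have hm' := Finset.mem_range.1 hm
  rw [MonoidAlgebra.coeff_sum, Finsupp.finsetSum_apply, Finset.sum_eq_single (l - m)]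
  · rw [MonoidAlgebra.single_mul_single, MonoidAlgebra.coeff_single, ← ofAdd_add,
      Finsupp.single_apply, if_pos]
    congr 1
    omega
  · intro k _ hk
    rw [MonoidAlgebra.single_mul_single, MonoidAlgebra.coeff_single, ← ofAdd_add,
      Finsupp.single_apply, if_neg]
    intro h2
    have h3 : (k : ℤ) + m = l := Multiplicative.ofAdd.injective h2
    omega
  · intro h2
    exact absurd (Finset.mem_range.2 (by omega)) h2

/-- from finitely supported vectors to the circle -/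
theorem circle_of_normLE {κ : Type} [Fintype κ] (A : Matrix κ κ ℤ[X]) (c : ℝ)
    (h : NormLE (A.map lau) c) (z : ℂ) (hz : ‖z‖ = 1) (v : κ → ℂ) :
    ∑ j, ‖∑ i, v i * aeval z (A i j)‖ ^ 2 ≤ c ^ 2 * ∑ i, ‖v i‖ ^ 2 := by
  classical
  have hz0 : z ≠ 0 := by
    rintro rfl
    simp at hz
  obtain ⟨D, hD⟩ : ∃ D : ℕ, ∀ i j, (A i j).natDegree ≤ D := by
    refine ⟨Finset.univ.sup fun q : κ × κ => (A q.1 q.2).natDegree, fun i j => ?_⟩
    exact Finset.le_sup (f := fun q : κ × κ => (A q.1 q.2).natDegree) (Finset.mem_univ (i, j))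
  obtain ⟨w, hw⟩ : ∃ w : κ → ℂ, ∀ j, w j = ∑ i, v i * aeval z (A i j) := ⟨_, fun _ => rfl⟩
  obtain ⟨W, hW⟩ : ∃ W : ℝ, W = ∑ j, ‖w j‖ ^ 2 := ⟨_, rfl⟩
  obtain ⟨V, hV⟩ : ∃ V : ℝ, V = ∑ i, ‖v i‖ ^ 2 := ⟨_, rfl⟩
  have hW0 : 0 ≤ W := by rw [hW]; positivity
  -- a linear functional `L` (real or imaginary part)
  have main : ∀ L : ℂ →ₗ[ℝ] ℝ, ∀ N : ℕ, D < N →
      ∑ j, ∑ l ∈ Finset.Ico D N, L (z⁻¹ ^ l * w j) ^ 2 ≤
        c ^ 2 * ∑ i, ∑ k ∈ Finset.range N, L (z⁻¹ ^ k * v i) ^ 2 := by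
    intro L N hN
    have h1 := h (fun i => tr N fun k => L (z⁻¹ ^ k * v i))
    have h2 : normSq (fun i => tr N fun k => L (z⁻¹ ^ k * v i)) =
        ∑ i, ∑ k ∈ Finset.range N, L (z⁻¹ ^ k * v i) ^ 2 := by
      rw [normSq_eq]
      exact Finset.sum_congr rfl fun i _ => tr_n1 N _
    rw [h2] at h1
    refine le_trans ?_ h1
    rw [normSq_eq]
    refine Finset.sum_le_sum fun j _ => ?_
    have hinj : Function.Injective (fun k : ℕ => Multiplicative.ofAdd (k : ℤ)) := by
      intro a b h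
      simpa using h
    have h3 := sum_sq_le (((fun i => tr N fun k => L (z⁻¹ ^ k * v i)) ᵥ* toReal (A.map lau)) j)
      ((Finset.Ico D N).map ⟨fun k : ℕ => Multiplicative.ofAdd (k : ℤ), hinj⟩)
    refine le_trans (le_of_eq ?_) h3
    rw [Finset.sum_map]
    refine Finset.sum_congr rfl fun l hl => ?_
    obtain ⟨hl1, hl2⟩ := Finset.mem_Ico.1 hl
    congr 1
    change _ = (((fun i => tr N fun k => L (z⁻¹ ^ k * v i)) ᵥ* toReal (A.map lau)) j).coeff
      (Multiplicative.ofAdd (l : ℤ))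
    rw [Matrix.vecMul, dotProduct, MonoidAlgebra.coeff_sum, Finsupp.finsetSum_apply]
    have h4 : ∀ i, ((tr N fun k => L (z⁻¹ ^ k * v i)) * toReal (A.map lau) i j).coeff
        (Multiplicative.ofAdd (l : ℤ)) = L (z⁻¹ ^ l * (v i * aeval z (A i j))) := by
      intro i
      have h5 := tr_mul_coeff N (fun k => L (z⁻¹ ^ k * v i)) (A i j) D l (hD i j) hl1 hl2
      refine Eq.trans h5 ?_
      have h6 : aeval z (A i j) = ∑ m ∈ Finset.range (D + 1), ((A i j).coeff m : ℂ) * z ^ m := by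
        rw [aeval_def, eval₂_eq_sum_range' _ (Nat.lt_succ_of_le (hD i j))]
        simp
      rw [h6, Finset.mul_sum, Finset.mul_sum, map_sum]
      refine Finset.sum_congr rfl fun m hm => ?_
      have hm' : m ≤ l := by
        have := Finset.mem_range.1 hm
        omega
      have h7 : z⁻¹ ^ l * (v i * (((A i j).coeff m : ℂ) * z ^ m)) =
          (((A i j).coeff m : ℤ) : ℝ) • (z⁻¹ ^ (l - m) * v i) := by
        rw [Complex.real_smul]
        have h8 : z⁻¹ ^ l = z⁻¹ ^ (l - m) * z⁻¹ ^ m := by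
          rw [← pow_add]
          congr 1
          omega
        have h9 : z⁻¹ ^ m * z ^ m = 1 := by
          rw [← mul_pow, inv_mul_cancel₀ hz0, one_pow]
        rw [h8]
        push_cast
        linear_combination (z⁻¹ ^ (l - m) * v i * ((A i j).coeff m : ℂ)) * h9
      rw [h7, map_smul, smul_eq_mul, mul_comm]
    rw [Finset.sum_congr rfl (fun i _ => h4 i), ← map_sum, ← Finset.mul_sum, ← hw]
  have hsq : ∀ u : ℂ, Complex.reLm u ^ 2 + Complex.imLm u ^ 2 = ‖u‖ ^ 2 := by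
    intro u
    rw [← Complex.normSq_eq_norm_sq, Complex.normSq_apply]
    simp only [Complex.reLm_coe, Complex.imLm_coe]
    ring
  have hzk : ∀ (k : ℕ) (u : ℂ), ‖z⁻¹ ^ k * u‖ = ‖u‖ := by
    intro k u
    rw [norm_mul, norm_pow, norm_inv, hz, inv_one, one_pow, one_mul]
  have key : ∀ N : ℕ, D < N → ((N : ℝ) - D) * W ≤ c ^ 2 * (N * V) := by
    intro N hN
    have h1 := main Complex.reLm N hN
    have h2 := main Complex.imLm N hN
    have h3 : ∑ j, ∑ l ∈ Finset.Ico D N, Complex.reLm (z⁻¹ ^ l * w j) ^ 2 +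
        ∑ j, ∑ l ∈ Finset.Ico D N, Complex.imLm (z⁻¹ ^ l * w j) ^ 2 = ((N : ℝ) - D) * W := by
      rw [← Finset.sum_add_distrib, hW, Finset.mul_sum]
      refine Finset.sum_congr rfl fun j _ => ?_
      rw [← Finset.sum_add_distrib]
      simp only [hsq, hzk, Finset.sum_const, Nat.card_Ico, nsmul_eq_mul]
      rw [Nat.cast_sub hN.le]
    have h4 : ∑ i, ∑ k ∈ Finset.range N, Complex.reLm (z⁻¹ ^ k * v i) ^ 2 +
        ∑ i, ∑ k ∈ Finset.range N, Complex.imLm (z⁻¹ ^ k * v i) ^ 2 = N * V := by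
      rw [← Finset.sum_add_distrib, hV, Finset.mul_sum]
      refine Finset.sum_congr rfl fun j _ => ?_
      rw [← Finset.sum_add_distrib]
      simp only [hsq, hzk, Finset.sum_const, Finset.card_range, nsmul_eq_mul]
    rw [← h3, ← h4, mul_add]
    linarith
  have hfin : W ≤ c ^ 2 * V := by
    by_contra hcon
    rw [not_le] at hcon
    obtain ⟨N, hN⟩ := exists_nat_gt (D * W / (W - c ^ 2 * V))
    have h1 := key (N + D + 1) (by omega)
    have h2 : 0 < W - c ^ 2 * V := by linarith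
    rw [div_lt_iff₀ h2] at hN
    push_cast at h1
    have h3 : (0 : ℝ) ≤ (D : ℝ) * (W - c ^ 2 * V) := by positivity
    nlinarith
  rw [hW, hV] at hfin
  simpa only [hw] using hfin

end Pool.Agent.U307.NT
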